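import Pool.Agent.Helper82.SP.GoalsB

/-!
# Project SP, packet B13: the radii
-/

set_option autoImplicit false

namespace Pool.Agent.Helper15.SP

open Matrix Real
open Pool.Agent.Helper82.SP
open Pool.Agent.Helper26.LU (V M3 SO3 nrm sph proj Bm Rot crossM)

namespace B13Aux

theorem sum_eq (x d : V) (R : M3) :
    ∑ p, ∑ m, (Matrix.of (fun p m : Fin 3 => x p * d m)) p m * R p m = x ⬝ᵥ (R *ᵥ d) := by
  simp only [Matrix.of_apply, dotProduct, Matrix.mulVec, Finset.mul_sum]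
  refine Finset.sum_congr rfl fun p _ => Finset.sum_congr rfl fun m _ => ?_
  ring

theorem lin_zero (hLIN : G_LIN) (x d : V) (k : ℝ) (U : Set M3) (hU : IsOpen U)
    (hne : (U ∩ (SO3 : Set M3)).Nonempty) (hd : d ≠ 0)
    (h : ∀ R ∈ U, R ∈ SO3 → x ⬝ᵥ (R *ᵥ d) = k) : x = 0 := by
  have h0 := hLIN (Matrix.of (fun p m : Fin 3 => x p * d m)) k U hU hne
    (fun R hR hS => by rw [sum_eq]; exact h R hR hS)
  obtain ⟨m, hm⟩ : ∃ m, d m ≠ 0 := by
    by_contra hcon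
    push Not at hcon
    exact hd (funext hcon)
  funext p
  have h1 : x p * d m = 0 := by
    have h2 := congrFun (congrFun h0 p) m
    simpa using h2
  exact (mul_eq_zero.1 h1).resolve_right hm

theorem expand (κ : ℝ) (b c d : V) (g : ℝ) (R : M3) (hR : R ∈ SO3) :
    Qd κ b g (c + R *ᵥ d) =
      κ * (c ⬝ᵥ c + 2 * (c ⬝ᵥ (R *ᵥ d)) + d ⬝ᵥ d) - 2 * (b ⬝ᵥ c + b ⬝ᵥ (R *ᵥ d)) + g := by
  have h1 : (R *ᵥ d) ⬝ᵥ (R *ᵥ d) = d ⬝ᵥ d := Pool.Agent.Helper26.LU.dot_mulVec hR d d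
  have h2 : (c + R *ᵥ d) ⬝ᵥ (c + R *ᵥ d)
      = c ⬝ᵥ c + 2 * (c ⬝ᵥ (R *ᵥ d)) + (R *ᵥ d) ⬝ᵥ (R *ᵥ d) := by
    rw [add_dotProduct, dotProduct_add, dotProduct_add, dotProduct_comm (R *ᵥ d) c]
    ring
  rw [Qd, h2, h1, dotProduct_add]

end B13Aux

open B13Aux

theorem goalB13 (hLIN : G_LIN) : G_B13 := by
  intro v a κ b g U i0 c w h1 h2 hU hne hR
  obtain ⟨R0, hR0U, hR0S⟩ := hne
  have hne : (U ∩ (SO3 : Set M3)).Nonempty := ⟨R0, hR0U, hR0S⟩
  have key : ∀ i, κ i = 1 → b i = c → (v i - w) ⬝ᵥ (v i - w) ≤ 2 * a ^ 2 / 3 := by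
    intro i hκ hb
    have h := hR R0 hR0U hR0S i
    rw [expand _ _ _ _ _ _ hR0S, hκ, hb] at h
    rcases h1 i with ⟨h3, _⟩ | ⟨_, h3⟩
    · rw [h3] at hκ
      norm_num at hκ
    · rw [hb] at h3
      linarith
  intro i
  by_cases hi : i = i0
  · subst hi
    by_cases hd : v i - w = 0
    · rw [hd]
      simp only [zero_dotProduct]
      positivity
    · rcases h1 i with ⟨h3, h4⟩ | ⟨h3, h4⟩
      · exfalso
        apply h4
        refine lin_zero hLIN (b i) (v i - w) (g i / 2 - b i ⬝ᵥ c) U hU hne hd ?_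
        intro R hRU hRS
        have h := hR R hRU hRS i
        rw [expand _ _ _ _ _ _ hRS, h3] at h
        linarith
      · apply key i h3
        have h5 : c - b i = 0 := by
          refine lin_zero hLIN (c - b i) (v i - w)
            ((2 * (b i ⬝ᵥ c) - g i - c ⬝ᵥ c - (v i - w) ⬝ᵥ (v i - w)) / 2) U hU hne hd ?_
          intro R hRU hRS
          have h := hR R hRU hRS i
          rw [expand _ _ _ _ _ _ hRS, h3] at h
          rw [sub_dotProduct]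
          linarith
        exact (sub_eq_zero.1 h5).symm
  · obtain ⟨h3, h4⟩ := h2 i hi
    exact key i h3 h4

end Pool.Agent.Helper15.SP
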